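import Pool.Agent.H32.RK.TargetsA
import Pool.Agent.H32.RK.TargetsE

/-!
Row POS (`MP_63b6b1_nt`, number fields): a positive proportion of the pairs has a zero.
-/

set_option autoImplicit false

open Finset NumberField Pool.Agent.H32.RQ Pool.Agent.H32.RK

namespace Pool.Agent.H90.RK

open scoped Nat in
open Classical in
theorem pf_POS (K : Type) [Field K] [NumberField K] (hMN : T_MN K) (hAQO : T_AQO K)
    (hPS1 : T_PS1 K) (hPS2 : T_PS2 K) (hPS3 : T_PS3 K) (hSPL : T_SPL K) (hNRM : T_NRM K) :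
    T_POS K := by
  intro ι _ _ ω s hs
  obtain ⟨CQ, hCQ, hAQ⟩ := hAQO
  obtain ⟨C₁, d₁, r₁, hC₁, hd₁, hr₁, hP1⟩ := hPS1 ι ω s (by omega)
  obtain ⟨C₃, hC₃, hP3⟩ := hPS3 ι ω s
  obtain ⟨M, hM⟩ : ∃ M : ℕ, M = 2 * md s := ⟨_, rfl⟩
  obtain ⟨D, hD⟩ : ∃ D : ℕ, D = Fintype.card ι := ⟨_, rfl⟩
  -- the choice of w₀
  obtain ⟨w₀, hw1, hw⟩ : ∃ w₀ : ℕ, 1 ≤ w₀ ∧ 2 * (C₃ * CQ * (2 ^ D) ^ M) ≤ (w₀ : ℝ) ^ 2 := by
    obtain ⟨n, hn⟩ := exists_nat_ge (2 * (C₃ * CQ * (2 ^ D : ℝ) ^ M))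
    refine ⟨n + 1, by omega, hn.trans ?_⟩
    push_cast
    have h0 : (0 : ℝ) ≤ n := Nat.cast_nonneg n
    have h1 : (n : ℝ) + 1 ≤ ((n : ℝ) + 1) ^ 2 := le_self_pow₀ (by linarith) two_ne_zero
    linarith
  obtain ⟨r₀, hr₀, hMM⟩ := hMN ι ω s d₁ 1 w₀ hs hd₁
  have hC₁0 : 0 < C₁ := by linarith
  obtain ⟨r, hrdef⟩ : ∃ r : ℝ, r = min r₁ (min (r₀ / C₁) (1 / 2)) := ⟨_, rfl⟩
  have hr : 0 < r := by
    rw [hrdef]
    exact lt_min hr₁ (lt_min (div_pos hr₀ hC₁0) (by norm_num))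
  have hrr1 : r ≤ r₁ := by rw [hrdef]; exact min_le_left _ _
  have hrr0 : C₁ * r ≤ r₀ := by
    have h1 : r ≤ r₀ / C₁ := by
      rw [hrdef]
      exact (min_le_right _ _).trans (min_le_left _ _)
    rw [le_div_iff₀ hC₁0] at h1
    linarith
  have hr2 : r ≤ 1 / 2 := by
    rw [hrdef]
    exact (min_le_right _ _).trans (min_le_right _ _)
  obtain ⟨V, hV⟩ : ∃ V : ℕ, V = (w₀ !) ^ 2 := ⟨_, rfl⟩
  have hV1 : 1 ≤ V := by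
    rw [hV]
    exact Nat.one_le_pow _ _ (Nat.factorial_pos _)
  obtain ⟨𝔳, 𝔳', hv1, -, hv3, -, hv5⟩ := hSPL V w₀ hV1
  have hv0 : 𝔳 ≠ ⊥ := by
    intro h
    rw [h, Ideal.bot_mul, Ideal.span_singleton_eq_bot] at hv1
    have h1 : V = 0 := by exact_mod_cast hv1
    omega
  have hvp : ∀ 𝔭 : Ideal (𝓞 K), 𝔭.IsPrime → 𝔭 ≠ ⊥ → Ideal.absNorm 𝔭 ≤ w₀ → 𝔳 ≤ 𝔭 ^ 2 := by
    intro 𝔭 hp hp0 hpw
    refine hv5 𝔭 2 hp hp0 hpw ?_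
    rw [hV]
    push_cast
    refine Ideal.pow_mem_pow ?_ 2
    have h1 : 0 < Ideal.absNorm 𝔭 := by
      have : Ideal.absNorm 𝔭 ≠ 0 := by
        rw [Ne, Ideal.absNorm_eq_zero_iff]
        exact hp0
      omega
    obtain ⟨k, hk⟩ := Nat.dvd_factorial h1 hpw
    rw [hk]
    push_cast
    exact Ideal.mul_mem_right _ _ (Ideal.absNorm_mem 𝔭)
  have hNv : (0 : ℝ) < Ideal.absNorm 𝔳 := by
    have : Ideal.absNorm 𝔳 ≠ 0 := by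
      rw [Ne, Ideal.absNorm_eq_zero_iff]
      exact hv0
    exact_mod_cast Nat.pos_of_ne_zero this
  obtain ⟨ε, hε⟩ : ∃ ε : ℝ, ε = 1 / 4 * (r ^ D / (6 ^ D * Ideal.absNorm 𝔳)) ^ M := ⟨_, rfl⟩
  have hε0 : 0 < ε := by rw [hε]; positivity
  obtain ⟨𝔪, C, A₀, hm0, hcop, hcount⟩ := hMM ε hε0
  have hvm : 𝔳 ⊔ 𝔪 = ⊤ := by
    by_contra h
    obtain ⟨𝔭, hp, hle⟩ := Ideal.exists_le_maximal _ h
    have h1 := hv3 𝔭 hp.isPrime (le_sup_left.trans hle)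
    have h2 := hcop 𝔭 hp.isPrime (le_sup_right.trans hle)
    omega
  obtain ⟨A₁, hA₁⟩ := hPS2 ι ω s 𝔳 r hv0 hr hr2
  obtain ⟨A₂, hA₂⟩ := hP3 𝔳 𝔪 r hv0 hm0 hr hr2 hvm
  refine ⟨ε, hε0, A₀ + A₁ + A₂ + 1, fun A hA => ?_⟩
  have hAR : (1 : ℝ) ≤ A := by
    have : 1 ≤ A := by omega
    exact_mod_cast this
  have hNm : (0 : ℝ) < Ideal.absNorm 𝔪 := by
    have : Ideal.absNorm 𝔪 ≠ 0 := by
      rw [Ne, Ideal.absNorm_eq_zero_iff]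
      exact hm0
    exact_mod_cast Nat.pos_of_ne_zero this
  have hcnt := hcount A (by omega)
  have hQ := hA₁ A (by omega)
  rw [← hM, ← hD] at hQ
  rw [← hM, ← hD] at hcnt
  rw [← hM, ← hD]
  obtain ⟨Q, hQdef⟩ : ∃ Q : ℝ, Q = ((r * A / 2) ^ D / Ideal.absNorm 𝔳) ^ M := ⟨_, rfl⟩
  rw [← hQdef] at hQ
  have hQ0 : 0 ≤ Q := by rw [hQdef]; positivity
  obtain ⟨E, hE⟩ : ∃ E : Set (Fin 2 → Mon s → 𝓞 K ⧸ 𝔪), E =
    {F | 2 * am F < Ideal.absNorm 𝔪 ^ (s - 2)} := ⟨_, rfl⟩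
  have hE4 : (Nat.card E : ℝ) * (w₀ : ℝ) ^ 2 ≤ CQ * (Ideal.absNorm 𝔪 : ℝ) ^ M := by
    rw [hE, hM]
    exact hAQ s w₀ 𝔪 hs hw1 hm0 hcop
  have hZ := hA₂ A (by omega) E
  rw [← hM, ← hD] at hZ
  have hmemE : ∀ F : Fin 2 → Mon s → 𝓞 K ⧸ 𝔪, F ∈ E ↔
      2 * am F < Ideal.absNorm 𝔪 ^ (s - 2) := by
    intro F
    rw [hE]
    exact Iff.rfl
  -- the first set
  obtain ⟨Z, hZdef⟩ : ∃ Z : Finset (Fin 2 → Mon s → ι → ℤ),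
    Z = (sp ω s 𝔳 A r).filter fun c => cq 𝔪 (ec ω c) ∈ E := ⟨_, rfl⟩
  have hZ' : (Z.card : ℝ) * (Ideal.absNorm 𝔪 : ℝ) ^ M ≤
      C₃ * ((r * A) ^ D / Ideal.absNorm 𝔳) ^ M * Nat.card E := by
    rw [hZdef]
    exact hZ
  have hZQ : (Z.card : ℝ) ≤ 1 / 2 * Q := by
    have h8 : ((r * A) ^ D / Ideal.absNorm 𝔳) ^ M = (2 ^ D) ^ M * Q := by
      rw [hQdef, ← mul_pow]
      congr 1
      rw [div_pow]
      field_simp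
    have hW : (0 : ℝ) < (Ideal.absNorm 𝔪 : ℝ) ^ M := by positivity
    have hw0 : (0 : ℝ) < (w₀ : ℝ) ^ 2 := by
      have : (1 : ℝ) ≤ w₀ := by exact_mod_cast hw1
      positivity
    have hC₃0 : 0 ≤ C₃ := by linarith
    have h9 : ((Z.card : ℝ) * (w₀ : ℝ) ^ 2) * (Ideal.absNorm 𝔪 : ℝ) ^ M ≤
        (C₃ * (2 ^ D) ^ M * Q * CQ) * (Ideal.absNorm 𝔪 : ℝ) ^ M := by
      calc ((Z.card : ℝ) * (w₀ : ℝ) ^ 2) * (Ideal.absNorm 𝔪 : ℝ) ^ M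
          = ((Z.card : ℝ) * (Ideal.absNorm 𝔪 : ℝ) ^ M) * (w₀ : ℝ) ^ 2 := by ring
        _ ≤ (C₃ * ((r * A) ^ D / Ideal.absNorm 𝔳) ^ M * Nat.card E) * (w₀ : ℝ) ^ 2 :=
            mul_le_mul_of_nonneg_right hZ' hw0.le
        _ = (C₃ * ((2 ^ D) ^ M * Q)) * ((Nat.card E : ℝ) * (w₀ : ℝ) ^ 2) := by
            rw [h8]; ring
        _ ≤ (C₃ * ((2 ^ D) ^ M * Q)) * (CQ * (Ideal.absNorm 𝔪 : ℝ) ^ M) :=
            mul_le_mul_of_nonneg_left hE4 (mul_nonneg hC₃0 (mul_nonneg (by positivity) hQ0))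
        _ = _ := by ring
    have h10 : (Z.card : ℝ) * (w₀ : ℝ) ^ 2 ≤ C₃ * (2 ^ D) ^ M * Q * CQ :=
      le_of_mul_le_mul_right h9 hW
    have h11 : C₃ * (2 ^ D) ^ M * Q * CQ ≤ 1 / 2 * Q * (w₀ : ℝ) ^ 2 := by
      calc C₃ * (2 ^ D) ^ M * Q * CQ = 1 / 2 * (2 * (C₃ * CQ * (2 ^ D) ^ M) * Q) := by ring
        _ ≤ 1 / 2 * ((w₀ : ℝ) ^ 2 * Q) :=
            mul_le_mul_of_nonneg_left (mul_le_mul_of_nonneg_right hw hQ0) (by norm_num)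
        _ = 1 / 2 * Q * (w₀ : ℝ) ^ 2 := by ring
    exact le_of_mul_le_mul_right (h10.trans h11) hw0
  -- the second set
  obtain ⟨N, hNdef⟩ : ∃ N : Finset (Fin 2 → Mon s → ι → ℤ),
    N = ((bx ι s A).filter fun c => (∀ w, RB w d₁ r₀ A (ec ω c)) ∧
      (∀ 𝔭 : Ideal (𝓞 K), 𝔭.IsPrime → 𝔭 ≠ ⊥ → Ideal.absNorm 𝔭 ≤ w₀ → PR 1 𝔭 (ec ω c)) ∧
      Ideal.absNorm 𝔪 ^ (s - 2) ≤ 2 * am (cq 𝔪 (ec ω c)) ∧ ¬ SZ C A (ec ω c)) := ⟨_, rfl⟩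
  have h3A : (2 * (A : ℝ) + 1) ^ (M * D) ≤ (3 * (A : ℝ)) ^ (M * D) := by
    gcongr
    linarith
  have hεA : ε * (2 * (A : ℝ) + 1) ^ (M * D) ≤ 1 / 4 * Q := by
    calc ε * (2 * (A : ℝ) + 1) ^ (M * D) ≤ ε * (3 * (A : ℝ)) ^ (M * D) :=
          mul_le_mul_of_nonneg_left h3A hε0.le
      _ = 1 / 4 * Q := by
          rw [hε, hQdef, mul_comm M D, pow_mul, mul_assoc, ← mul_pow]
          congr 2
          rw [div_pow, mul_pow, mul_pow, show (6 : ℝ) = 3 * 2 by norm_num, mul_pow]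
          field_simp
  have hNQ : (N.card : ℝ) ≤ 1 / 4 * Q := by
    rw [hNdef]
    exact hcnt.trans hεA
  -- the target set
  obtain ⟨Tg, hTdef⟩ : ∃ Tg : Finset (Fin 2 → Mon s → ι → ℤ),
    Tg = ((bx ι s A).filter fun c => ∃ x : Fin s → 𝓞 K, x ≠ 0 ∧
      ∀ i, qf (ec ω c i) x = 0) := ⟨_, rfl⟩
  have hsub : sp ω s 𝔳 A r ⊆ (Z ∪ N) ∪ Tg := by
    intro c hc
    obtain ⟨hRB, hPR⟩ := hP1 𝔳 A r c hr hrr1 hc
    have hcbx : c ∈ bx ι s A := by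
      unfold Pool.Agent.H32.RK.sp at hc
      rw [mem_filter] at hc
      exact hc.1
    rw [mem_union, mem_union]
    by_cases h1 : cq 𝔪 (ec ω c) ∈ E
    · left; left
      rw [hZdef, mem_filter]
      exact ⟨hc, h1⟩
    · by_cases h2 : SZ C A (ec ω c)
      · right
        rw [hTdef, mem_filter]
        obtain ⟨x, hx0, hx, -⟩ := h2
        exact ⟨hcbx, x, hx0, hx⟩
      · left; right
        rw [hNdef, mem_filter]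
        refine ⟨hcbx, ?_, ?_, ?_, h2⟩
        · intro w
          obtain ⟨x, hx1, hx2, hx3, hx4, hx5⟩ := hRB w
          refine ⟨x, hx1, hx2, hx3, fun i => (hx4 i).trans ?_, hx5⟩
          exact mul_le_mul_of_nonneg_right hrr0 (by linarith)
        · intro 𝔭 hp hp0 hpw
          exact hPR 𝔭 hp hp0 (hvp 𝔭 hp hp0 hpw)
        · rw [hmemE] at h1
          exact not_lt.1 h1
  have hcard : ((sp ω s 𝔳 A r).card : ℝ) ≤ Z.card + N.card + Tg.card := by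
    have h1 := Finset.card_le_card hsub
    have h2 := Finset.card_union_le (Z ∪ N) Tg
    have h3 := Finset.card_union_le Z N
    have h4 : (sp ω s 𝔳 A r).card ≤ Z.card + N.card + Tg.card := by omega
    exact_mod_cast h4
  rw [← hTdef]
  linarith

end Pool.Agent.H90.RK
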