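import Pool.Agent.H32.RK.TargetsE

/-!
Row RAT (`MP_63b6b1_nt`, number fields): almost all smooth locally soluble pairs have a zero.
-/

set_option autoImplicit false

open Finset NumberField Pool.Agent.H32.RQ Pool.Agent.H32.RK

namespace Pool.Agent.H90.RK

theorem qf_map {R S : Type} [CommRing R] [CommRing S] (φ : R →+* S) {s : ℕ} (f : Mon s → R)
    (x : Fin s → R) : qf (fun p => φ (f p)) (fun j => φ (x j)) = φ (qf f x) := by
  unfold qf
  rw [map_sum]
  refine Finset.sum_congr rfl fun p _ => ?_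
  rw [map_mul, map_mul]

theorem map_ne {R S : Type} [CommRing R] [CommRing S] (φ : R →+* S)
    (hφ : Function.Injective φ) {s : ℕ} (x : Fin s → R) (hx : x ≠ 0) :
    (fun j => φ (x j)) ≠ 0 := by
  intro h
  apply hx
  funext j
  have h1 := congrFun h j
  apply hφ
  rw [Pi.zero_apply, map_zero]
  exact h1

theorem ls_of_zero {K : Type} [Field K] [NumberField K] {s : ℕ} (c : Fin 2 → Mon s → 𝓞 K)
    (h : ∃ x : Fin s → K, x ≠ 0 ∧ ∀ i, qf (fun p => (c i p : K)) x = 0) : LS c := by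
  obtain ⟨x, hx, h0⟩ := h
  refine ⟨fun φ => ⟨fun j => φ (x j), map_ne φ φ.injective x hx, fun i => ?_⟩,
    fun φ => ⟨fun j => φ (x j), map_ne φ φ.injective x hx, fun i => ?_⟩,
    fun v => ⟨fun j => algebraMap K (v.adicCompletion K) (x j),
      map_ne _ (algebraMap K (v.adicCompletion K)).injective x hx, fun i => ?_⟩⟩
  · rw [qf_map φ (fun p => (c i p : K)) x, h0 i, map_zero]
  · rw [qf_map φ (fun p => (c i p : K)) x, h0 i, map_zero]
  · rw [qf_map (algebraMap K (v.adicCompletion K)) (fun p => (c i p : K)) x, h0 i, map_zero]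

theorem zero_cast {K : Type} [Field K] [NumberField K] {s : ℕ} (c : Fin 2 → Mon s → 𝓞 K)
    (h : ∃ x : Fin s → 𝓞 K, x ≠ 0 ∧ ∀ i, qf (c i) x = 0) :
    ∃ x : Fin s → K, x ≠ 0 ∧ ∀ i, qf (fun p => (c i p : K)) x = 0 := by
  obtain ⟨x, hx, h0⟩ := h
  refine ⟨fun j => algebraMap (𝓞 K) K (x j),
    map_ne _ (FaithfulSMul.algebraMap_injective (𝓞 K) K) x hx, fun i => ?_⟩
  have h1 := qf_map (algebraMap (𝓞 K) K) (c i) x
  rw [h0 i, map_zero] at h1
  exact h1

open Classical Filter in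
theorem pf_RAT (K : Type) [Field K] [NumberField K] (hSMP : T_SMP) (hSZL : T_SZL K)
    (hPOS : T_POS K) (hHP : T_HP K) (hCRD : T_CRD) : T_RAT K := by
  intro ι _ _ ω s hs
  obtain ⟨P, hP, hPS⟩ := hSMP s
  have hcard : ∀ A : ℕ, ((bx ι s A).card : ℝ) =
      (2 * (A : ℝ) + 1) ^ (2 * md s * Fintype.card ι) := by
    intro A
    rw [(hCRD ι s A).2]
    push_cast
    ring
  have hpos : ∀ A : ℕ, (0 : ℝ) < (bx ι s A).card := by
    intro A
    rw [hcard]
    positivity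
  -- the predicate: a nonzero zero over `K`
  obtain ⟨Z, hZdef⟩ : ∃ Z : (Fin 2 → Mon s → ι → ℤ) → Prop, Z = fun c =>
    ∃ x : Fin s → K, x ≠ 0 ∧ ∀ i, qf (fun p => (ec ω c i p : K)) x = 0 := ⟨_, rfl⟩
  have hZiff : ∀ c, (∃ x : Fin s → K, x ≠ 0 ∧ ∀ i, qf (fun p => (ec ω c i p : K)) x = 0) ↔ Z c := by
    intro c
    rw [hZdef]
  have hZLS : ∀ c, Z c → LS (ec ω c) := fun c h => ls_of_zero _ ((hZiff c).2 h)
  have hZint : ∀ c, (∃ x : Fin s → 𝓞 K, x ≠ 0 ∧ ∀ i, qf (ec ω c i) x = 0) → Z c :=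
    fun c h => (hZiff c).1 (zero_cast _ h)
  have hN : ∀ ε : ℝ, 0 < ε → ∃ A₀ : ℕ, ∀ A : ℕ, A₀ ≤ A →
      (((bx ι s A).filter fun c => ¬ Sm (ec ω c)).card : ℝ) ≤ ε * (bx ι s A).card := by
    intro ε hε
    obtain ⟨A₀, h⟩ := hSZL ι ω s P hP ε hε
    refine ⟨A₀, fun A hA => ?_⟩
    rw [hcard]
    refine le_trans (Nat.cast_le.mpr (Finset.card_le_card ?_)) (h A hA)
    intro c hc
    rw [Finset.mem_filter] at hc ⊢
    refine ⟨hc.1, ?_⟩
    by_contra h0
    exact hc.2 (hPS K (ec ω c) h0)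
  obtain ⟨δ, hδ, A₁, hA₁⟩ := hPOS ι ω s hs
  have hZ : ∃ A₂ : ℕ, ∀ A : ℕ, A₂ ≤ A → δ / 2 * ((bx ι s A).card : ℝ) ≤
      (((bx ι s A).filter fun c => Sm (ec ω c) ∧ Z c).card : ℝ) := by
    obtain ⟨A₃, hA₃⟩ := hN (δ / 2) (by positivity)
    refine ⟨max A₁ A₃, fun A hA => ?_⟩
    have h1 := hA₁ A (le_trans (le_max_left _ _) hA)
    have h2 := hA₃ A (le_trans (le_max_right _ _) hA)
    rw [← hcard] at h1
    have h3 : (((bx ι s A).filter fun c => ∃ x : Fin s → 𝓞 K, x ≠ 0 ∧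
        ∀ i, qf (ec ω c i) x = 0).card : ℝ) ≤
        (((bx ι s A).filter fun c => Sm (ec ω c) ∧ Z c).card : ℝ) +
          (((bx ι s A).filter fun c => ¬ Sm (ec ω c)).card : ℝ) := by
      have h4 : ((bx ι s A).filter fun c => ∃ x : Fin s → 𝓞 K, x ≠ 0 ∧
          ∀ i, qf (ec ω c i) x = 0) ⊆
          ((bx ι s A).filter fun c => Sm (ec ω c) ∧ Z c) ∪
            (bx ι s A).filter fun c => ¬ Sm (ec ω c) := by
        intro c hc
        rw [Finset.mem_filter] at hc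
        by_cases hs : Sm (ec ω c)
        · exact Finset.mem_union_left _ (Finset.mem_filter.mpr ⟨hc.1, hs, hZint c hc.2⟩)
        · exact Finset.mem_union_right _ (Finset.mem_filter.mpr ⟨hc.1, hs⟩)
      have h5 := (Finset.card_le_card h4).trans (Finset.card_union_le _ _)
      exact_mod_cast h5
    linarith
  simp only [hZiff]
  refine ⟨?_, ⟨δ / 2, by positivity, hZ⟩, ?_, ?_⟩
  · rw [Metric.tendsto_atTop]
    intro ε hε
    obtain ⟨A₀, h⟩ := hN (ε / 2) (by positivity)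
    refine ⟨A₀, fun A hA => ?_⟩
    rw [Real.dist_eq, sub_zero, abs_of_nonneg (by positivity), div_lt_iff₀ (hpos A)]
    have := h A hA
    have h1 := hpos A
    nlinarith
  · obtain ⟨A₂, hA₂⟩ := hZ
    rw [Metric.tendsto_atTop]
    intro ε hε
    obtain ⟨C, A₃, hA₃⟩ := hHP ι ω s hs (ε * (δ / 2) / 2) (by positivity)
    refine ⟨max A₂ A₃, fun A hA => ?_⟩
    have h1 := hA₂ A (le_trans (le_max_left _ _) hA)
    have h2 := hA₃ A (le_trans (le_max_right _ _) hA)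
    rw [← hcard] at h2
    have hb := hpos A
    obtain ⟨X, hX⟩ : ∃ X : ℕ, X = ((bx ι s A).filter fun c => Sm (ec ω c) ∧ LS (ec ω c) ∧
        Z c).card := ⟨_, rfl⟩
    obtain ⟨Y, hY⟩ : ∃ Y : ℕ, Y = ((bx ι s A).filter fun c => Sm (ec ω c) ∧
        LS (ec ω c)).card := ⟨_, rfl⟩
    rw [← hX, ← hY]
    have hXZ : (((bx ι s A).filter fun c => Sm (ec ω c) ∧ Z c).card : ℝ) ≤ X := by
      rw [hX]
      refine Nat.cast_le.mpr (Finset.card_le_card ?_)
      intro c hc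
      rw [Finset.mem_filter] at hc ⊢
      exact ⟨hc.1, hc.2.1, hZLS c hc.2.2, hc.2.2⟩
    have hXY : (X : ℝ) ≤ Y := by
      rw [hX, hY]
      refine Nat.cast_le.mpr (Finset.card_le_card ?_)
      intro c hc
      rw [Finset.mem_filter] at hc ⊢
      exact ⟨hc.1, hc.2.1, hc.2.2.1⟩
    have hYX : (Y : ℝ) ≤ X + (((bx ι s A).filter fun c => LS (ec ω c) ∧
        ¬ SZ C A (ec ω c)).card : ℝ) := by
      have h4 : ((bx ι s A).filter fun c => Sm (ec ω c) ∧ LS (ec ω c)) ⊆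
          ((bx ι s A).filter fun c => Sm (ec ω c) ∧ LS (ec ω c) ∧ Z c) ∪
            (bx ι s A).filter fun c => LS (ec ω c) ∧ ¬ SZ C A (ec ω c) := by
        intro c hc
        rw [Finset.mem_filter] at hc
        by_cases hz : SZ C A (ec ω c)
        · obtain ⟨x, hx, hx0, _⟩ := hz
          exact Finset.mem_union_left _ (Finset.mem_filter.mpr
            ⟨hc.1, hc.2.1, hc.2.2, hZint c ⟨x, hx, hx0⟩⟩)
        · exact Finset.mem_union_right _ (Finset.mem_filter.mpr ⟨hc.1, hc.2.2, hz⟩)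
      have h5 := (Finset.card_le_card h4).trans (Finset.card_union_le _ _)
      rw [← hX, ← hY] at h5
      exact_mod_cast h5
    have hX0 : δ / 2 * ((bx ι s A).card : ℝ) ≤ X := h1.trans hXZ
    have hY0 : (0 : ℝ) < Y := lt_of_lt_of_le (mul_pos (half_pos hδ) hb) (hX0.trans hXY)
    have e : (X : ℝ) / Y - 1 = -((Y - X) / Y) := by
      field_simp
      ring
    rw [Real.dist_eq, e, abs_neg, abs_of_nonneg (div_nonneg (by linarith) hY0.le),
      div_lt_iff₀ hY0]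
    have h6 : ε * (δ / 2) / 2 * ((bx ι s A).card : ℝ) ≤ ε / 2 * Y := by
      have h7 : ε / 2 * (δ / 2 * ((bx ι s A).card : ℝ)) ≤ ε / 2 * Y :=
        mul_le_mul_of_nonneg_left (hX0.trans hXY) (by positivity)
      linarith
    have h8 : 0 < ε / 2 * Y := by positivity
    linarith
  · intro ε hε
    obtain ⟨C, A₀, h⟩ := hHP ι ω s hs ε hε
    refine ⟨C, A₀, fun A hA => ?_⟩
    have h1 := h A hA
    rw [← hcard] at h1
    exact h1

end Pool.Agent.H90.RK
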